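import Pool.Agent.Q50.MM.Defs

/-!
# Hilbert newforms and abelian varieties congruent to them modulo infinitely many primes: data and
known facts
-/

set_option autoImplicit false

open NumberField

namespace Pool.Agent.Q50.ES.MF

open MS (Mod Irreducible InSpan2)
open MC (UpperDensityIn InClass NoQuadratic)
open MM (Integers Large InfinitelyMany)

/-- Hilbert newforms, abelian varieties and their representations modulo `p`, for all primes `p`. `k p`: an
algebraic closure of the field with `p` elements; `cyclo p`: the cyclotomic character modulo `p`.
`Form F`: the Hilbert newforms over `F` of parallel weight 2 with trivial character (none if `F` is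
not a totally real number field); `eig f w`: the Hecke eigenvalue, an algebraic integer; `Ram f w`: `w`
divides the level; `Even f`: all places divide the level an even number of times; `CM f`: complex
multiplication; `Associated f`: there is an abelian variety `A_f`, that is, the assertion of Q1 for
`f`. `AV F`: the abelian varieties over `F` with an action up to isogeny of a totally real number field
`E ⊆ Ω` of degree the dimension; `dim A`; `Good A w`: good reduction; `point A w ∈ E`: the trace of the
Frobenius element of `w` on `V(A)` over `E`. For a homomorphism `φ` of the ring of algebraic integers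
to `k p`: `formRep p φ f`, `avRep p φ A` are the semisimplified reductions of the Galois representations.
`place F`: the finite places; `norm w`: the number of elements of the residue field; `frob w`: a
Frobenius element in `Gal(Ω/F)`; `Over p w`: `w` divides `p`. -/
structure Data where
  /-- an algebraic closure of the field with `p` elements -/
  k : ℕ → Type
  /-- it is a field -/
  [field : ∀ p, Field (k p)]
  /-- the cyclotomic character -/
  cyclo : ∀ p, Γ → k p
  /-- the finite places -/
  place : Fld → Type
  /-- the norm -/
  norm : ∀ {F}, place F → ℕ
  /-- a Frobenius element -/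
  frob : ∀ {F}, place F → Γ
  /-- places over `p` -/
  Over : ∀ {F}, ℕ → place F → Prop
  /-- newforms -/
  Form : Fld → Type
  /-- Hecke eigenvalues -/
  eig : ∀ {F}, Form F → place F → Integers
  /-- places which divide the level -/
  Ram : ∀ {F}, Form F → place F → Prop
  /-- the level is even -/
  Even : ∀ {F}, Form F → Prop
  /-- complex multiplication -/
  CM : ∀ {F}, Form F → Prop
  /-- the newform has an associated abelian variety -/
  Associated : ∀ {F}, Form F → Prop
  /-- abelian varieties with real multiplication -/
  AV : Fld → Type
  /-- the dimension -/
  dim : ∀ {F}, AV F → ℕ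
  /-- good reduction -/
  Good : ∀ {F}, AV F → place F → Prop
  /-- Frobenius traces -/
  point : ∀ {F}, AV F → place F → Integers
  /-- the representation of a newform modulo `p` -/
  formRep : ∀ (p : ℕ) (_ : Integers →+* k p) {F}, Form F → Mod (k p) F
  /-- the representation of an abelian variety modulo `p` -/
  avRep : ∀ (p : ℕ) (_ : Integers →+* k p) {F}, AV F → Mod (k p) F

attribute [instance] Data.field

namespace Data

variable (T : Data)

/-- The places of `F` whose Frobenius elements are in the class of `τ` in `Gal(L/F)`. -/
def Class (F L : Fld) (τ : Γ) : Set (T.place F) := {w | InClass F L τ (T.frob w)}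

/-- The place is not in `S` and does not divide `p` or the level of `f`. -/
def Fine {F : Fld} (S : Set (T.place F)) (p : ℕ) (f : T.Form F) (w : T.place F) : Prop :=
  w ∉ S ∧ ¬ T.Over p w ∧ ¬ T.Ram f w

/-- `A` has dimension at most `d` and good reduction outside `S`. -/
def Bounded {F : Fld} (S : Set (T.place F)) (d : ℕ) (A : T.AV F) : Prop :=
  T.dim A ≤ d ∧ ∀ w, w ∉ S → T.Good A w

/-- `L` is a finite Galois extension of `F` without quadratic extensions of `F`, over which the reduction
of the representation of `f` is irreducible; `τ ∈ Gal(Ω/F)`. -/
def Admissible {F : Fld} (p : ℕ) (φ : Integers →+* T.k p) (f : T.Form F) (L : Fld) (τ : Γ) : Prop :=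
  FiniteGalois F L ∧ NoQuadratic F L ∧
    (∀ t, InSpan2 {t | ∃ g ∈ Gal L, t = (T.formRep p φ f).toFun g} t) ∧ τ ∈ Gal F

/-- For some homomorphism `φ` from the ring of algebraic integers to `k p`, some abelian variety `A` of
dimension at most `d` with real multiplication and good reduction outside `S`, and some admissible
`(L, τ)`: the Frobenius trace of `A` and the eigenvalue of `f` have the same image under `φ` for more
than `7/8` of the places whose Frobenius elements are in the class of `τ` in `Gal(L/F)`. -/
def CongruentAt {F : Fld} (S : Set (T.place F)) (d : ℕ) (f : T.Form F) (p : ℕ) : Prop :=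
  ∃ (φ : Integers →+* T.k p) (A : T.AV F) (L : Fld) (τ : Γ), T.Bounded S d A ∧
    T.Admissible p φ f L τ ∧ UpperDensityIn T.norm (7 / 8) (T.Class F L τ)
      {w | T.Fine S p f w ∧ φ (T.point A w) = φ (T.eig f w)}

/-- For some finite set `S` and some `d` this is so for infinitely many prime numbers `p`. -/
def CongruentMany {F : Fld} (f : T.Form F) : Prop :=
  ∃ (S : Set (T.place F)) (d : ℕ), S.Finite ∧
    InfinitelyMany fun p => Large p ∧ T.CongruentAt S d f p

/-- The Frobenius traces of `A` are the eigenvalues of `f` outside a finite set of places. -/
def Matches {F : Fld} (f : T.Form F) (A : T.AV F) : Prop :=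
  ∃ S : Set (T.place F), S.Finite ∧ ∀ w, w ∉ S → T.Good A w ∧ T.point A w = T.eig f w

/-- Known (Faltings, finiteness): the abelian varieties over `F` of dimension at most `d` with real
multiplication and good reduction outside the finite set `S` have finitely many families of
Frobenius traces. -/
def Faltings : Prop :=
  ∀ (F : Fld) (S : Set (T.place F)) (d : ℕ), TotallyReal F → S.Finite →
    ∃ (n : ℕ) (B : Fin n → T.AV F), ∀ A, T.Bounded S d A →
      ∃ i, ∀ w, w ∉ S → T.Good (B i) w ∧ T.point A w = T.point (B i) w

/-- Known (Shimura, Ribet, Faltings): `f` has an associated abelian variety if and only if its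
eigenvalues are the Frobenius traces of an abelian variety with real multiplication, outside a finite
set of places. -/
def Matching : Prop :=
  ∀ (F : Fld) (f : T.Form F), TotallyReal F → (T.Associated f ↔ ∃ A : T.AV F, T.Matches f A)

/-- Known (Weil pairing): the determinant of the representation of `A` is cyclotomic, and the trace of
Frobenius elements at places of good reduction not over `p` is the reduction of `point A w`. -/
def TorsionTraces : Prop :=
  ∀ (F : Fld) (p : ℕ) (φ : Integers →+* T.k p) (A : T.AV F), TotallyReal F → Large p →
    (∀ g ∈ Gal F, ((T.avRep p φ A).toFun g).det = T.cyclo p g) ∧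
      ∀ w, T.Good A w → ¬ T.Over p w →
        ((T.avRep p φ A).toFun (T.frob w)).trace = φ (T.point A w)

/-- Known (Carayol, Taylor, Blasius, Rogawski): the same for newforms. -/
def FormTraces : Prop :=
  ∀ (F : Fld) (p : ℕ) (φ : Integers →+* T.k p) (f : T.Form F), TotallyReal F → Large p →
    (∀ g ∈ Gal F, ((T.formRep p φ f).toFun g).det = T.cyclo p g) ∧
      ∀ w, ¬ T.Ram f w → ¬ T.Over p w →
        ((T.formRep p φ f).toFun (T.frob w)).trace = φ (T.eig f w)

/-- Known (Dimitrov): if `f` has no complex multiplication, its representations modulo `p` are absolutely
irreducible for almost all `p`. -/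
def IrreducibleForms : Prop :=
  ∀ (F : Fld) (f : T.Form F), TotallyReal F → ¬ T.CM f →
    ∃ B : ℕ, ∀ p, Large p → B ≤ p → ∀ φ : Integers →+* T.k p, Irreducible (T.formRep p φ f)

/-- Known: for every class of places almost all members are fine, and they are infinite in number. -/
def Almost : Prop :=
  ∀ (F : Fld) (S : Set (T.place F)) (f : T.Form F) (p : ℕ) (L : Fld) (τ : Γ), TotallyReal F →
    S.Finite → Large p → FiniteGalois F L → τ ∈ Gal F →
    UpperDensityIn T.norm (7 / 8) (T.Class F L τ) {w | T.Fine S p f w}

/-- The first known facts: `k p` has characteristic `p` and receives the ring of algebraic integers; the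
Chebotarev density theorem; finitely many places divide the level and have bounded norm; a place lies
over one prime number only. -/
structure Basic : Prop where
  char : ∀ p, Large p → CharP (T.k p) p
  red : ∀ p, Large p → Nonempty (Integers →+* T.k p)
  chebotarev : ∀ F : Fld, TotallyReal F → MC.Chebotarev F (T.norm (F := F)) T.frob
  frob_mem : ∀ (F : Fld) (w : T.place F), T.frob w ∈ Gal F
  places : ∀ (F : Fld) (x : ℕ), TotallyReal F → {w : T.place F | T.norm w ≤ x}.Finite
  ram : ∀ (F : Fld) (f : T.Form F), {w : T.place F | T.Ram f w}.Finite
  overOne : ∀ (F : Fld) (w : T.place F) (p q : ℕ), T.Over p w → T.Over q w → p = q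

/-- The known facts; `knownCM` (Shimura, Casselman): newforms with complex multiplication have associated
abelian varieties. -/
structure Facts : Prop where
  basic : T.Basic
  faltings : T.Faltings
  matching : T.Matching
  torsion : T.TorsionTraces
  forms : T.FormTraces
  irreducible : T.IrreducibleForms
  almost : T.Almost
  knownCM : ∀ (F : Fld) (f : T.Form F), TotallyReal F → T.CM f → T.Associated f

end Data

end Pool.Agent.Q50.ES.MF
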