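import Pool.Agent.Q50.MF.Defs
import Pool.Agent.Q50.MM.Main

/-!
# Abelian varieties of newforms from congruences modulo infinitely many primes
-/

set_option autoImplicit false
set_option maxHeartbeats 4000000
set_option synthInstance.maxHeartbeats 400000
set_option linter.unusedSectionVars false
set_option linter.ambiguousOpen false

open NumberField

namespace Pool.Agent.Q50.ES.MF

open MS (Mod Irreducible InSpan2)
open MC (UpperDensityIn InClass NoQuadratic)
open MM (Integers Large InfinitelyMany)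

/-- An algebraic integer which is zero modulo infinitely many primes is zero. -/
theorem eq_zero_of_red (k : ℕ → Type) [∀ p, Field (k p)]
    (hc : ∀ p, Large p → CharP (k p) p) (a : Integers)
    (h : InfinitelyMany fun p => Large p ∧ ∃ φ : Integers →+* k p, φ a = 0) : a = 0 := by
  by_contra ha
  have hint : IsIntegral ℤ a := Algebra.IsIntegral.isIntegral a
  obtain ⟨P, hP0, h1⟩ := hint.isAlgebraic.exists_nonzero_coeff_and_aeval_eq_zero
    (mem_nonZeroDivisors_of_ne_zero ha)
  obtain ⟨p, hp, hlp, φ, hpa⟩ := h (Int.natAbs (P.coeff 0) + 1)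
  have hch := hc p hlp
  have h2 : φ (Polynomial.aeval a P) = 0 := by rw [h1, map_zero]
  rw [Polynomial.aeval_def, Polynomial.hom_eval₂, hpa, Polynomial.eval₂_at_zero] at h2
  have h3 : ((P.coeff 0 : ℤ) : k p) = 0 := by
    rw [← h2]
    simp
  rw [CharP.intCast_eq_zero_iff (k p) p] at h3
  have h4 : p ≤ Int.natAbs (P.coeff 0) :=
    Nat.le_of_dvd (Int.natAbs_pos.2 hP0) (Int.natCast_dvd.1 h3)
  omega

namespace Data

variable {T : Data}

/-- If the congruence is true for most places in a class, it is true for all fine places. -/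
theorem congruent_all (hT : T.Facts) {F : Fld} (hF : TotallyReal F) {S : Set (T.place F)}
    {d : ℕ} {f : T.Form F} {p : ℕ} (hp : Large p) (h : T.CongruentAt S d f p) :
    ∃ (φ : Integers →+* T.k p) (A : T.AV F), T.Bounded S d A ∧
      ∀ w, T.Fine S p f w → φ (T.point A w) = φ (T.eig f w) := by
  classical
  obtain ⟨φ, A, L, τ, hA, ⟨hL, hnq, hirr, hτ⟩, hd⟩ := h
  obtain ⟨hdetA, htrA⟩ := hT.torsion F p φ A hF hp
  obtain ⟨hdetf, htrf⟩ := hT.forms F p φ f hF hp
  obtain ⟨P, hP⟩ := MC.iso_of_density (hT.basic.chebotarev F hF) (hT.basic.frob_mem F) hL hτ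
    (T.formRep p φ f) (T.avRep p φ A) hirr (by
      obtain ⟨δ, hδ, hfr⟩ := hd
      refine ⟨δ, hδ, hfr.mono fun x hx => hx.trans ?_⟩
      have hfx : ({w : T.place F | T.norm w ≤ x}).Finite := hT.basic.places F x hF
      exact_mod_cast Set.ncard_le_ncard (by
        rintro w ⟨⟨⟨hw, hi⟩, hwc⟩, hwx⟩
        refine ⟨⟨⟨hwc, ?_⟩, hwc⟩, hwx⟩
        rw [htrf w hw.2.2 hw.2.1, htrA w (hA.2 w hw.1) hw.2.1]
        exact hi.symm)
        (hfx.subset Set.inter_subset_right))
  have hiso := MC.iso_of_det hL hnq (T.formRep p φ f) (T.avRep p φ A) hirr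
    (fun g hg => (hdetf g hg).trans (hdetA g hg).symm) hP
  refine ⟨φ, A, hA, fun w hw => ?_⟩
  rw [← htrA w (hA.2 w hw.1) hw.2.1, ← htrf w hw.2.2 hw.2.1, hiso _ (hT.basic.frob_mem F w),
    Matrix.trace_mul_comm, ← mul_assoc, ← Units.val_mul, inv_mul_cancel, Units.val_one, one_mul]

theorem finiteGalois_self {F : Fld} (hF : FiniteDimensional ℚ F) : FiniteGalois F F := by
  refine ⟨le_rfl, hF, fun g hg x hx => ?_⟩
  have h1 : g x = x := (IntermediateField.mem_fixingSubgroup_iff F g).1 hg x hx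
  rw [h1]
  exact hx

theorem noQuadratic_self (F : Fld) : NoQuadratic F F := by
  intro H h1 h2 h3
  have : H = F.fixingSubgroup := le_antisymm h2 h1
  rw [this, Subgroup.relIndex_self] at h3
  exact absurd h3 (by norm_num)

theorem exists_large (B : ℕ) : ∃ p, B ≤ p ∧ Large p := by
  obtain ⟨p, hp, hpp⟩ := Nat.exists_infinite_primes (max B 4)
  exact ⟨p, (le_max_left _ _).trans hp, hpp, (le_max_right B 4).trans hp⟩

/-- **One newform.** -/
theorem associated_iff (hT : T.Facts) {F : Fld} (hF : TotallyReal F) (f : T.Form F)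
    (hf : ¬ T.CM f) : T.Associated f ↔ T.CongruentMany f := by
  classical
  rw [hT.matching F f hF]
  constructor
  · rintro ⟨A, S, hS, hA⟩
    obtain ⟨B, hB⟩ := hT.irreducible F f hF hf
    refine ⟨S, T.dim A, hS, fun B' => ?_⟩
    obtain ⟨p, hp, hlp⟩ := exists_large (max B B')
    obtain ⟨φ⟩ := hT.basic.red p hlp
    have hirr := hB p hlp ((le_max_left _ _).trans hp) φ
    have hL := finiteGalois_self hF.1
    refine ⟨p, (le_max_right _ _).trans hp, hlp, φ, A, F, 1, ⟨le_rfl, fun w hw => (hA w hw).1⟩,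
      ⟨hL, noQuadratic_self F, hirr, F.fixingSubgroup.one_mem⟩, ?_⟩
    have h1 : {w | T.Fine S p f w ∧ φ (T.point A w) = φ (T.eig f w)} =
        {w : T.place F | T.Fine S p f w} := by
      ext w
      exact ⟨fun hw => hw.1, fun hw => ⟨hw, by rw [(hA w hw.1).2]⟩⟩
    rw [h1]
    exact hT.almost F S f p F 1 hF hS hlp hL F.fixingSubgroup.one_mem
  · rintro ⟨S, d, hS, hmany⟩
    obtain ⟨n, B, hB⟩ := hT.faltings F S d hF hS
    obtain ⟨i, hi⟩ := MM.exists_infinitelyMany (ι := Fin n)
      (P := fun i p => Large p ∧ (∀ w, w ∉ S → T.Good (B i) w) ∧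
        ∃ φ : Integers →+* T.k p, ∀ w, T.Fine S p f w → φ (T.point (B i) w) = φ (T.eig f w)) (by
        intro B'
        obtain ⟨p, hp, hlp, hcong⟩ := hmany B'
        obtain ⟨φ, A, hA, hw⟩ := congruent_all hT hF hlp hcong
        obtain ⟨i, hi⟩ := hB A hA
        refine ⟨p, hp, i, hlp, fun w hwS => (hi w hwS).1, φ, fun w hwf => ?_⟩
        rw [← (hi w hwf.1).2]
        exact hw w hwf)
    refine ⟨B i, S ∪ {w | T.Ram f w}, hS.union (hT.basic.ram F f), fun w hw => ?_⟩
    have hwS : w ∉ S := fun h => hw (Or.inl h)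
    have hwR : ¬ T.Ram f w := fun h => hw (Or.inr h)
    obtain ⟨-, -, -, hgood, -⟩ := hi 0
    refine ⟨hgood w hwS, ?_⟩
    rw [← sub_eq_zero]
    refine eq_zero_of_red T.k hT.basic.char _ fun B' => ?_
    by_cases hov : ∃ q, T.Over q w
    · obtain ⟨q, hq⟩ := hov
      obtain ⟨p, hp, hlp, -, φ, hφ⟩ := hi (max B' (q + 1))
      refine ⟨p, (le_max_left _ _).trans hp, hlp, φ, ?_⟩
      have hpq : ¬ T.Over p w := by
        intro h
        have h1 := hT.basic.overOne F w p q h hq
        have h2 := (le_max_right B' (q + 1)).trans hp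
        omega
      rw [map_sub, hφ w ⟨hwS, hpq, hwR⟩, sub_self]
    · obtain ⟨p, hp, hlp, -, φ, hφ⟩ := hi B'
      refine ⟨p, hp, hlp, φ, ?_⟩
      rw [map_sub, hφ w ⟨hwS, fun h => hov ⟨p, h⟩, hwR⟩, sub_self]

/-- **All newforms.** -/
theorem all_iff (hT : T.Facts) :
    (∀ F, TotallyReal F → EvenDegree F → ∀ f : T.Form F, T.Even f → T.Associated f) ↔
      ∀ F, TotallyReal F → EvenDegree F → ∀ f : T.Form F, T.Even f → ¬ T.CM f →
        T.CongruentMany f := by
  constructor
  · intro h F hF hE f hf hcm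
    exact (associated_iff hT hF f hcm).1 (h F hF hE f hf)
  · intro h F hF hE f hf
    by_cases hcm : T.CM f
    · exact hT.knownCM F f hF hcm
    · exact (associated_iff hT hF f hcm).2 (h F hF hE f hf hcm)

end Data

end Pool.Agent.Q50.ES.MF
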